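import Pool.Agent.H189.G.WinG
import Pool.Agent.H189.Loc.Cov

/-!
# Gaussian disorder, `d ≥ 3`: in the bulk most eigenvectors on large tori are spread beyond the
mean free path

`H_σ = Δ + σ ξ` on `ℤ^d`, `d ≥ 3`, `(Δψ)(x) = ∑_{|y-x|=1} ψ(y)`, iid standard Gaussian `ξ`; `H_L` is
its periodic restriction to `{0, …, L-1}^d`. Fix `κ > 0`. There is `c > 0` such that for all
`ε, δ > 0` there is `σ₀ > 0` such that for `0 < σ ≤ σ₀`, with probability at least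
`1 - exp(-σ^{-1/13000})`, the following holds simultaneously for all `L` with
`σ^{-7} ≤ L ≤ exp(σ^{-1/13000})`, for every orthonormal basis of eigenvectors of `H_L`, and for
every energy interval `[α, β]` in `[-2d + κ, 2d - κ]` of length at least `σ^{2 + 1/50}`:
* at least `c (β - α) L^d` of the eigenvalues lie in `[α, β]`;
* all of the corresponding eigenvectors except for a fraction `δ` have less than the part `ε` of
  their mass in every slab `{x : |x_i - y| ≤ σ^{-2 - 1/90}}` of the torus.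

So at all energies of the bulk, which is the region where continuous spectrum is expected, there is
no trace of localization on the scale of the mean free path `~ σ^{-2}` and beyond it. The starting
results for this problem treat the region near the band edges.
-/

set_option autoImplicit false

open scoped BigOperators Topology
open MeasureTheory ProbabilityTheory

namespace Pool.Agent.Results.MP_1906c1_mp.BulkEigenvectors

open Pool.Agent.R988.Tor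

/-- the periodic restriction of `H_σ = Δ + σ ξ` to the box `{0, …, L-1}^d` -/
noncomputable def HL {d L : ℕ} (σ : ℝ) (ξ : (Fin d → ℤ) → ℝ) (u : (Fin d → ZMod L) → ℂ)
    (x : Fin d → ZMod L) : ℂ :=
  ∑ i : Fin d, (u (x + Pi.single i 1) + u (x - Pi.single i 1)) +
    ((σ * ξ (fun i => ((x i).val : ℤ)) : ℝ) : ℂ) * u x

/-- `ψ` is an orthonormal basis of the functions on the torus that consists of eigenvectors of the
periodic restriction, with eigenvalues `E` -/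
structure IsEigenbasis {d L : ℕ} [NeZero L] {ι : Type} [Fintype ι] (σ : ℝ)
    (ξ : (Fin d → ℤ) → ℝ) (ψ : ι → (Fin d → ZMod L) → ℂ) (E : ι → ℝ) : Prop where
  norm : ∀ j, ∑ x, ‖ψ j x‖ ^ 2 = 1
  orth : ∀ i j, i ≠ j → ∑ x, (starRingEnd ℂ) (ψ i x) * ψ j x = 0
  card : Fintype.card ι = L ^ d
  eq : ∀ j x, HL σ ξ (ψ j) x = (E j : ℂ) * ψ j x

/-- the mass of `u` in the slab `{x : |x_i - y| ≤ ℓ}` of the torus -/
noncomputable def slabMass {d L : ℕ} [NeZero L] (u : (Fin d → ZMod L) → ℂ) (i : Fin d)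
    (y : ZMod L) (ℓ : ℝ) : ℝ :=
  ∑ x : Fin d → ZMod L, if |((x i - y).valMinAbs : ℝ)| ≤ ℓ then ‖u x‖ ^ 2 else 0

theorem toEB {d L : ℕ} [NeZero L] {ι : Type} [Fintype ι] [DecidableEq ι] {σ : ℝ}
    {ξ : (Fin d → ℤ) → ℝ} {ψ : ι → (Fin d → ZMod L) → ℂ} {E : ι → ℝ}
    (h : IsEigenbasis σ ξ ψ E) :
    EB (fun x => 2 * d - σ * ξ (Pool.Agent.R988.Tor.em x)) ψ (fun j => 2 * d - E j) := by
  refine ⟨fun i j => ?_, ?_, fun j x => ?_⟩
  · split_ifs with hij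
    · subst hij
      have h1 : ∀ x, (starRingEnd ℂ) (ψ i x) * ψ i x = ((‖ψ i x‖ ^ 2 : ℝ) : ℂ) := fun x => by
        rw [mul_comm, Complex.mul_conj, Complex.normSq_eq_norm_sq]
      simp only [h1]
      rw [← Complex.ofReal_sum, h.norm i, Complex.ofReal_one]
    · exact h.orth i j hij
  · rw [h.card, Fintype.card_fun, ZMod.card, Fintype.card_fin]
  · have h2 := h.eq j x
    unfold HL at h2
    unfold TS Pool.Agent.R988.Tor.em
    push_cast at h2 ⊢
    linear_combination (-1 : ℂ) * h2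

/-- **Theorem.** -/
theorem result (d : ℕ) (hd : 3 ≤ d) (κ : ℝ) (hκ : 0 < κ) : ∃ c : ℝ, 0 < c ∧
    ∀ ε δ : ℝ, 0 < ε → 0 < δ → ∃ σ0 : ℝ, 0 < σ0 ∧ ∀ σ : ℝ, 0 < σ → σ ≤ σ0 →
      ∃ G : Set ((Fin d → ℤ) → ℝ), MeasurableSet G ∧
        1 - Real.exp (-σ ^ (-(1 / 13000) : ℝ)) ≤
          (Measure.infinitePi fun _ : Fin d → ℤ => gaussianReal 0 1).real G ∧
        ∀ ξ ∈ G, ∀ (L : ℕ) [NeZero L], σ ^ (-7 : ℝ) ≤ L →
          (L : ℝ) ≤ Real.exp (σ ^ (-(1 / 13000) : ℝ)) →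
        ∀ (ι : Type) [Fintype ι] (ψ : ι → (Fin d → ZMod L) → ℂ) (E : ι → ℝ),
          IsEigenbasis σ ξ ψ E →
        ∀ α β : ℝ, -(2 * (d : ℝ)) + κ ≤ α → β ≤ 2 * d - κ → α + σ ^ (2 + 1 / 50 : ℝ) ≤ β →
          c * (β - α) * (L : ℝ) ^ d ≤ ({j | α ≤ E j ∧ E j ≤ β}.ncard : ℝ) ∧
          ({j | (α ≤ E j ∧ E j ≤ β) ∧ ∃ (i : Fin d) (y : ZMod L),
              ε ≤ slabMass (ψ j) i y (σ ^ (-(2 + 1 / 90) : ℝ))}.ncard : ℝ) ≤
            δ * ({j | α ≤ E j ∧ E j ≤ β}.ncard : ℝ) := by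
  classical
  have hd0 : (0 : ℝ) < d := by
    have : 0 < d := by omega
    exact_mod_cast this
  obtain ⟨m1, hm1, hwin⟩ := Pool.Agent.H189.G.windowG d hd (min κ 1) (lt_min hκ one_pos)
    (min_le_right _ _)
  refine ⟨m1 / 96, by positivity, fun ε δ hε hδ => ?_⟩
  obtain ⟨τ, hτ⟩ : ∃ τ, τ = δ * (m1 / 96) * ε ^ 2 / (32 * d) := ⟨_, rfl⟩
  have hτ0 : 0 < τ := by rw [hτ]; positivity
  obtain ⟨t1, ht1, ht11, hwin1⟩ := hwin ε τ hε hτ0
  obtain ⟨t2, ht2, ht21, hev⟩ := ev_extract (ev1 3 (1 / 250) (by norm_num))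
  refine ⟨min t1 t2, lt_min ht1 ht2, ?_⟩
  intro σ hσ hσ0
  obtain ⟨G, hG, hP, hGp⟩ := hwin1 σ hσ (hσ0.trans (min_le_left _ _))
  have h3 := hev σ hσ (hσ0.trans (min_le_right _ _))
  refine ⟨G, hG, hP, ?_⟩
  intro ξ hξ L _ hL1 hL2 ι _ ψ E hE α β hα hβ hαβ
  have hkey := hGp ξ hξ L hL1 hL2 ι ψ (fun j => 2 * d - E j) (toEB hE)
  obtain ⟨w, hw⟩ : ∃ w, w = σ ^ (253 / 125 : ℝ) := ⟨_, rfl⟩
  rw [← hw] at hkey
  have hw0 : 0 < w := by rw [hw]; exact Real.rpow_pos_of_pos hσ _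
  have hw3 : 3 * w ≤ σ ^ (2 + 1 / 50 : ℝ) := by
    have e1 : w = σ ^ (1 / 250 : ℝ) * σ ^ (2 + 1 / 50 : ℝ) := by
      rw [hw, ← Real.rpow_add hσ]
      norm_num
    have e2 : 0 < σ ^ (2 + 1 / 50 : ℝ) := Real.rpow_pos_of_pos hσ _
    nlinarith
  have hl : σ ^ (-(2 + 1 / 90) : ℝ) = σ ^ (-(181 / 90) : ℝ) := by norm_num
  have hcardT : (Fintype.card (TT d L) : ℝ) = (L : ℝ) ^ d := by
    rw [Fintype.card_fun, ZMod.card, Fintype.card_fin]
    push_cast
    rfl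
  rw [hcardT] at hkey
  have hLd : 0 ≤ (L : ℝ) ^ d := by positivity
  have hen : ∀ e, α ≤ e → e ≤ β → |2 * (d : ℝ) - (2 * d - e)| ≤ 2 * d - min κ 1 := by
    intro e he1 he2
    have := min_le_left κ 1
    rw [abs_le]
    constructor <;> linarith
  have habs : ∀ (e : ℝ) (j : ι), |2 * (d : ℝ) - E j - (2 * d - e)| = |E j - e| := by
    intro e j
    rw [← abs_neg]
    congr 1
    ring
  have hn1 : ({j | α ≤ E j ∧ E j ≤ β}.ncard : ℝ) =
      ((Finset.univ.filter fun j => α ≤ E j ∧ E j ≤ β).card : ℝ) := by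
    rw [Set.ncard_eq_toFinset_card']
    congr 2
    ext j
    simp
  have hlow := Pool.Agent.H189.Loc.lower E w (m1 / 16 * (L : ℝ) ^ d) α β hw0 (by positivity)
    (by linarith) (fun e he1 he2 => by
      have := (hkey (2 * d - e) (hen e he1 he2)).1
      simp only [habs] at this
      linarith)
  have hlow' : m1 / 96 * (β - α) * (L : ℝ) ^ d ≤ ({j | α ≤ E j ∧ E j ≤ β}.ncard : ℝ) := by
    rw [hn1]
    refine le_trans (le_of_eq ?_) hlow
    ring
  refine ⟨hlow', ?_⟩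
  have hup : ∀ i : Fin d, ((Finset.univ.filter fun j => (α ≤ E j ∧ E j ≤ β) ∧ ∃ y : ZMod L,
      ε ≤ ∑ x : TT d L, if |((x i - y).valMinAbs : ℝ)| ≤ σ ^ (-(181 / 90) : ℝ) then
        ‖ψ j x‖ ^ 2 else 0).card : ℝ) ≤ 2 * (16 * (L : ℝ) ^ d * τ / ε ^ 2) * (β - α) := by
    intro i
    refine Pool.Agent.H189.Loc.upper E _ w _ α β hw0 (by positivity) (by linarith)
      fun e he1 he2 => ?_
    have h5 := (hkey (2 * d - e) (hen e he1 he2)).2 i
    simp only [habs] at h5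
    have h6 : 16 * (L : ℝ) ^ d * τ / ε ^ 2 * w = 16 * w * (L : ℝ) ^ d * τ / ε ^ 2 := by ring
    rw [h6, le_div_iff₀ (by positivity)]
    refine le_trans (le_of_eq ?_) h5
    congr 3
  have hunion : (({j | (α ≤ E j ∧ E j ≤ β) ∧ ∃ (i : Fin d) (y : ZMod L),
      ε ≤ slabMass (ψ j) i y (σ ^ (-(2 + 1 / 90) : ℝ))}.ncard : ℕ) : ℝ) ≤
      ∑ i : Fin d, ((Finset.univ.filter fun j => (α ≤ E j ∧ E j ≤ β) ∧ ∃ y : ZMod L,
      ε ≤ ∑ x : TT d L, if |((x i - y).valMinAbs : ℝ)| ≤ σ ^ (-(181 / 90) : ℝ) then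
        ‖ψ j x‖ ^ 2 else 0).card : ℝ) := by
    rw [Set.ncard_eq_toFinset_card', ← Nat.cast_sum, Nat.cast_le]
    refine le_trans (Finset.card_le_card ?_) Finset.card_biUnion_le
    intro j hj
    rw [Set.mem_toFinset] at hj
    obtain ⟨h7, i, y, h8⟩ := hj
    refine Finset.mem_biUnion.2 ⟨i, Finset.mem_univ _, Finset.mem_filter.2
      ⟨Finset.mem_univ _, h7, y, ?_⟩⟩
    rw [hl] at h8
    exact h8
  refine hunion.trans ((Finset.sum_le_sum fun i _ => hup i).trans ?_)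
  rw [Finset.sum_const, Finset.card_univ, Fintype.card_fin, nsmul_eq_mul]
  calc (d : ℝ) * (2 * (16 * (L : ℝ) ^ d * τ / ε ^ 2) * (β - α)) =
      δ * (m1 / 96 * (β - α) * (L : ℝ) ^ d) := by
        rw [hτ]
        field_simp
        ring
    _ ≤ _ := by gcongr

end Pool.Agent.Results.MP_1906c1_mp.BulkEigenvectors
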