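import Pool.Agent.H189.U.Prof

/-!
# Gaussian disorder, `d ≥ 3`: at every bulk energy the resolvent profile is that of Brownian motion

`H_σ = Δ + σ ξ` on `ℤ^d`, `d ≥ 3`, `(Δψ)(x) = ∑_{|y-x|=1} ψ(y)`, iid standard Gaussian `ξ`,
`0 < σ ≤ σ₀(d, κ, K)`. With probability at least `1 - exp(-σ^{-1/14000})` the following holds
simultaneously for

* all sites `|a| ≤ exp(σ^{-1/14000})`,
* all energies `|E| ≤ 2 d - κ`,
* all scales `σ^{2 + 1/41} ≤ η ≤ σ^{2 + 1/80}` (the kinetic scale is `σ²`),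
* all `q ∈ ℝ^d` with `|q|² ≤ K`.

Let `u = (H_σ - E - iη)⁻¹ δ_a` (which exists and is unique in `ℓ²`) and `r = (η σ²)^{1/2}`. Then
`η ∑_x e^{i r q·(x - a)} |u(x)|² = Im g₀(E) / (1 + D(E) |q|²) + O(σ^{1/201})`, where
`D(E) = Im g₁(E) / (Im g₀(E))²`.

So in the units `1 / r` the probability measure `|u(x)|² / ∑ |u|²` converges to the law at an
independent exponential time of the Brownian motion with generator `D(E) Δ`. This is the heat
equation (in its resolvent form) past the kinetic scale, with the diffusion constant of the linear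
Boltzmann equation, at every energy inside the band and for one fixed realisation of the disorder.
-/

set_option autoImplicit false

open scoped BigOperators Topology
open MeasureTheory Filter ProbabilityTheory

namespace Pool.Agent.Results.MP_1906c1_mp.DiffusionProfile

/-- `(H_σ ψ)(x) = ∑_{|y-x|=1} ψ(y) + σ ξ(x) ψ(x)` -/
noncomputable def H {d : ℕ} (σ : ℝ) (ξ : (Fin d → ℤ) → ℝ) (ψ : (Fin d → ℤ) → ℂ)
    (x : Fin d → ℤ) : ℂ :=
  ∑ i : Fin d, (ψ (x + Pi.single i 1) + ψ (x - Pi.single i 1)) + ((σ * ξ x : ℝ) : ℂ) * ψ x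

/-- `u = (H_σ - E - iη)⁻¹ δ_a` in `ℓ²(ℤ^d)` -/
structure IsGreen {d : ℕ} (σ : ℝ) (ξ : (Fin d → ℤ) → ℝ) (a : Fin d → ℤ) (E η : ℝ)
    (u : (Fin d → ℤ) → ℂ) : Prop where
  sq : Summable fun x => ‖u x‖ ^ 2
  eq : ∀ x, H σ ξ u x - ((E : ℂ) + (η : ℂ) * Complex.I) * u x = if x = a then 1 else 0

/-- `∫_0^1 exp(-is · 2 cos 2πx) dx` -/
noncomputable def p0 (s : ℝ) : ℂ :=
  ∫ x in (0 : ℝ)..1, Complex.exp (Complex.I * ((-s * (2 * Real.cos (2 * Real.pi * x)) : ℝ) : ℂ))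

/-- `∫_0^1 sin²(2πx) exp(-is · 2 cos 2πx) dx` -/
noncomputable def p1 (s : ℝ) : ℂ :=
  ∫ x in (0 : ℝ)..1, ((Real.sin (2 * Real.pi * x) ^ 2 : ℝ) : ℂ) *
    Complex.exp (Complex.I * ((-s * (2 * Real.cos (2 * Real.pi * x)) : ℝ) : ℂ))

/-- the boundary value `∫_{[0,1]^d} (∑ 2 cos 2πk_i - E - i0)⁻¹ dk` -/
noncomputable def g0 (d : ℕ) (E : ℝ) : ℂ :=
  Complex.I * ∫ s in Set.Ioi (0 : ℝ), p0 s ^ d * Complex.exp (Complex.I * (E : ℂ) * s)

/-- the boundary value `∫_{[0,1]^d} sin²(2πk_1) (∑ 2 cos 2πk_i - E - i0)⁻¹ dk` -/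
noncomputable def g1 (d : ℕ) (E : ℝ) : ℂ :=
  Complex.I * ∫ s in Set.Ioi (0 : ℝ), p1 s * p0 s ^ (d - 1) * Complex.exp (Complex.I * (E : ℂ) * s)

/-- the diffusion constant at the energy `E` -/
noncomputable def D (d : ℕ) (E : ℝ) : ℝ := (g1 d E).im / (g0 d E).im ^ 2

theorem g0_eq (d : ℕ) (E : ℝ) : g0 d E = Pool.Agent.H189.G.γ0 d E := rfl

theorem g1_eq (d : ℕ) (E : ℝ) : g1 d E = Pool.Agent.H189.G.γ1 d E := rfl

theorem ph_eq {d : ℕ} (r : ℝ) (q : Fin d → ℝ) (x a : Fin d → ℤ) :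
    Pool.Agent.TH794.HK.ph (fun i => r * q i) (x - a) =
      Complex.exp (Complex.I * ((r * ∑ i, q i * ((x i : ℝ) - a i) : ℝ) : ℂ)) := by
  unfold Pool.Agent.TH794.HK.ph
  rw [Finset.mul_sum]
  congr 3
  refine Finset.sum_congr rfl fun i _ => ?_
  simp only [Pi.sub_apply, Int.cast_sub]
  ring

/-- reflection and complex conjugation -/
theorem green_rs {d : ℕ} (σ : ℝ) (ξ : (Fin d → ℤ) → ℝ) (a : Fin d → ℤ) (E η : ℝ)
    (u : (Fin d → ℤ) → ℂ) (hu : IsGreen σ ξ a E η u) :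
    Pool.Agent.TH794.QE.Rs d (fun x => 2 * d - σ * ξ x) a (2 * d - E) η
      (fun x => -(starRingEnd ℂ) (u x)) := by
  refine ⟨?_, fun x => ?_⟩
  · simp only [norm_neg, RCLike.norm_conj]
    exact hu.sq
  · have h1 := congrArg (starRingEnd ℂ) (hu.eq x)
    have h2 : (starRingEnd ℂ) (if x = a then (1 : ℂ) else 0) = if x = a then 1 else 0 := by
      split_ifs <;> simp
    rw [h2] at h1
    rw [← h1]
    unfold H Pool.Agent.W788.LD.Spec.S
    have e1 : ∑ i : Fin d, (-(starRingEnd ℂ) (u (x + Pi.single i 1)) +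
        -(starRingEnd ℂ) (u (x - Pi.single i 1))) =
        -∑ i : Fin d, ((starRingEnd ℂ) (u (x + Pi.single i 1)) +
          (starRingEnd ℂ) (u (x - Pi.single i 1))) := by
      rw [← Finset.sum_neg_distrib]
      exact Finset.sum_congr rfl fun i _ => by ring
    rw [e1]
    simp only [map_sub, map_add, map_mul, map_sum, Complex.conj_ofReal, Complex.conj_I]
    push_cast
    ring

theorem rs_green {d : ℕ} (σ : ℝ) (ξ : (Fin d → ℤ) → ℝ) (a : Fin d → ℤ) (E η : ℝ)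
    (u : (Fin d → ℤ) → ℂ)
    (hu : Pool.Agent.TH794.QE.Rs d (fun x => 2 * d - σ * ξ x) a (2 * d - E) η u) :
    IsGreen σ ξ a E η (fun x => -(starRingEnd ℂ) (u x)) := by
  refine ⟨?_, fun x => ?_⟩
  · simp only [norm_neg, RCLike.norm_conj]
    exact hu.sq
  · have h1 := congrArg (starRingEnd ℂ) (hu.eq x)
    have h2 : (starRingEnd ℂ) (if x = a then (1 : ℂ) else 0) = if x = a then 1 else 0 := by
      split_ifs <;> simp
    rw [h2] at h1
    rw [← h1]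
    unfold H Pool.Agent.W788.LD.Spec.S
    have e1 : ∑ i : Fin d, (-(starRingEnd ℂ) (u (x + Pi.single i 1)) +
        -(starRingEnd ℂ) (u (x - Pi.single i 1))) =
        -∑ i : Fin d, ((starRingEnd ℂ) (u (x + Pi.single i 1)) +
          (starRingEnd ℂ) (u (x - Pi.single i 1))) := by
      rw [← Finset.sum_neg_distrib]
      exact Finset.sum_congr rfl fun i _ => by ring
    rw [e1]
    simp only [map_sub, map_add, map_mul, map_sum, map_neg, Complex.conj_ofReal, Complex.conj_I]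
    push_cast
    ring

/-- **Theorem.** -/
theorem result (d : ℕ) (hd : 3 ≤ d) (κ : ℝ) (hκ : 0 < κ) (hκ1 : κ ≤ 1) :
    (∃ m : ℝ, 0 < m ∧ ∀ E : ℝ, |E| ≤ 2 * d - κ → m ≤ (g1 d E).im ∧
      (g1 d E).im ≤ (g0 d E).im) ∧
    ∀ K : ℝ, 0 ≤ K → ∃ σ0 : ℝ, 0 < σ0 ∧ ∀ σ : ℝ, 0 < σ → σ ≤ σ0 →
      ∃ G : Set ((Fin d → ℤ) → ℝ), MeasurableSet G ∧
        1 - Real.exp (-σ ^ (-(1 / 14000) : ℝ)) ≤
          (Measure.infinitePi fun _ : Fin d → ℤ => gaussianReal 0 1).real G ∧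
        ∀ ξ ∈ G, ∀ a : Fin d → ℤ, ‖a‖ ≤ Real.exp (σ ^ (-(1 / 14000) : ℝ)) →
          ∀ E : ℝ, |E| ≤ 2 * d - κ →
          ∀ η : ℝ, σ ^ (2 + 1 / 41 : ℝ) ≤ η → η ≤ σ ^ (2 + 1 / 80 : ℝ) →
            (∃! u, IsGreen σ ξ a E η u) ∧
            ∀ u, IsGreen σ ξ a E η u → ∀ q : Fin d → ℝ, ∑ i, q i ^ 2 ≤ K →
              ‖(η : ℂ) * ∑' x, Complex.exp (Complex.I *
                  ((Real.sqrt (η * σ ^ 2) * ∑ i, q i * ((x i : ℝ) - a i) : ℝ) : ℂ)) *
                  ((‖u x‖ ^ 2 : ℝ) : ℂ) -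
                (((g0 d E).im / (1 + D d E * ∑ i, q i ^ 2) : ℝ) : ℂ)‖ ≤ σ ^ (1 / 201 : ℝ) := by
  obtain ⟨m, C, hm, hC, hb⟩ := Pool.Agent.H189.G.bulk d hd κ hκ hκ1
  refine ⟨⟨m, hm, fun E hE => ⟨(hb E hE).1, (hb E hE).2.1⟩⟩, fun K hK => ?_⟩
  obtain ⟨σ0, hσ0, hσ01, h⟩ := Pool.Agent.H189.U.profG d hd κ hκ hκ1 K hK
  refine ⟨σ0, hσ0, fun σ hσ hle => ?_⟩
  obtain ⟨G, hG, hP, hL⟩ := h σ hσ hle
  refine ⟨G, hG, hP, fun ξ hξ a ha E hE η hη1 hη2 => ?_⟩
  have hη0 : 0 < η := lt_of_lt_of_le (Real.rpow_pos_of_pos hσ _) hη1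
  constructor
  · obtain ⟨u, hu⟩ := Pool.Agent.H189.U.rsU_exists (fun x => 2 * (d : ℝ) - σ * ξ x) a (2 * d - E)
      η hη0
    refine ⟨_, rs_green σ ξ a E η u hu, fun w hw => ?_⟩
    have hw' := green_rs σ ξ a E η w hw
    obtain ⟨v, hv⟩ : ∃ v : (Fin d → ℤ) → ℂ, v = fun x => -(starRingEnd ℂ) (w x) - u x := ⟨_, rfl⟩
    have hvs : Summable fun x => ‖v x‖ ^ 2 := by
      refine Summable.of_nonneg_of_le (fun x => by positivity) (fun x => ?_)
        ((hw'.sq.mul_left 2).add (hu.sq.mul_left 2))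
      rw [hv]
      simp only
      have h1 := norm_sub_le (-(starRingEnd ℂ) (w x)) (u x)
      have h2 := pow_le_pow_left₀ (norm_nonneg _) h1 2
      nlinarith [sq_nonneg (‖-(starRingEnd ℂ) (w x)‖ - ‖u x‖)]
    have hz : Summable fun _ : Fin d → ℤ => ‖(0 : ℂ)‖ ^ 2 := by simp
    have h3 := Pool.Agent.H189.U.energy (fun x => 2 * (d : ℝ) - σ * ξ x) (2 * d - E) η hη0 v
      (fun _ => 0) hvs hz (fun x => by
        have e1 := hw'.eq x
        have e2 := hu.eq x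
        have e3 : Pool.Agent.W788.LD.Spec.S v x =
            Pool.Agent.W788.LD.Spec.S (fun x => -(starRingEnd ℂ) (w x)) x -
              Pool.Agent.W788.LD.Spec.S u x := by
          rw [hv]
          unfold Pool.Agent.W788.LD.Spec.S
          rw [← Finset.sum_sub_distrib]
          exact Finset.sum_congr rfl fun i _ => by ring
        rw [e3, hv]
        linear_combination e1 - e2)
    have h4 : ∑' _x : Fin d → ℤ, ‖(0 : ℂ)‖ ^ 2 = 0 := by simp
    rw [h4] at h3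
    have h5 : ∑' x, ‖v x‖ ^ 2 ≤ 0 := by
      by_contra hcon
      have := mul_pos (pow_pos hη0 2) (not_le.1 hcon)
      linarith
    funext x
    have h6 := hvs.le_tsum x fun y _ => by positivity
    have h7 : ‖v x‖ ^ 2 = 0 := le_antisymm (h6.trans h5) (by positivity)
    have h8 : v x = 0 := norm_eq_zero.1 (pow_eq_zero_iff two_ne_zero |>.1 h7)
    rw [hv] at h8
    simp only at h8
    have h9 : u x = -(starRingEnd ℂ) (w x) := (sub_eq_zero.1 h8).symm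
    rw [h9]
    simp
  · intro u hu q hq
    obtain ⟨r, hr⟩ : ∃ r, r = Real.sqrt (η * σ ^ 2) := ⟨_, rfl⟩
    have hr2 : r ^ 2 = η * σ ^ 2 := by
      rw [hr, Real.sq_sqrt (by positivity)]
    have hsum : ∑ i, (r * q i) ^ 2 = η * σ ^ 2 * ∑ i, q i ^ 2 := by
      rw [Finset.mul_sum]
      refine Finset.sum_congr rfl fun i _ => ?_
      rw [mul_pow, hr2]
    have h4 := hL ξ hξ a ha (2 * d - E) (by
      rw [sub_sub_cancel]
      exact hE) η hη1 hη2 _ (green_rs σ ξ a E η u hu) (fun i => r * q i)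
      (by
        rw [hsum, mul_comm]
        gcongr)
    rw [sub_sub_cancel] at h4
    have e2 : Pool.Agent.TH794.HK.Tg (Pool.Agent.H189.G.γ0 d) (Pool.Agent.H189.G.γ1 d) η (σ ^ 2) E
        (fun i => r * q i) = (g0 d E).im / (1 + D d E * ∑ i, q i ^ 2) := by
      unfold Pool.Agent.TH794.HK.Tg D
      rw [hsum, g0_eq, g1_eq]
      have h5 : η * σ ^ 2 ≠ 0 := by positivity
      rw [mul_div_cancel_left₀ _ h5, mul_comm (∑ i, q i ^ 2)]
    rw [e2] at h4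
    simp only [ph_eq, norm_neg, RCLike.norm_conj] at h4
    rw [← hr]
    exact h4

end Pool.Agent.Results.MP_1906c1_mp.DiffusionProfile
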