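import Pool.Agent.H189.U.Flat

/-!
# Gaussian disorder, `d ≥ 3`: spectral measures are flat beyond the kinetic scale

`H_σ = Δ + σ ξ` on `ℤ^d`, `d ≥ 3`, `(Δψ)(x) = ∑_{|y-x|=1} ψ(y)`, iid standard Gaussian `ξ`. There are
`σ₀ > 0` and `K`, depending only on `d`, such that for `0 < σ ≤ σ₀`, with probability at least
`1 - exp(-σ^{-1/301})`,
* every spectral measure `m` of a vector `g` supported in the box of radius `exp(σ^{-1/301})`
  satisfies `m [E - s, E + s] ≤ K log(1/σ) s ‖g‖₁²` at all energies `E` and for all `s ≥ σ^{53/25}`;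
* every `ℓ²`-eigenfunction `u`, at whatever energy, satisfies
  `|u(x)|² ≤ K log(1/σ) σ^{53/25} ‖u‖²` at all sites `x` of that box.
The natural kinetic scale is `σ²`; the scale `σ^{53/25}` is much smaller. All energies are covered,
in particular the bulk, where continuous spectrum is expected.
-/

set_option autoImplicit false

open scoped BigOperators Topology
open MeasureTheory ProbabilityTheory

namespace Pool.Agent.Results.MP_1906c1_mp.FlatBeyondKinetic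

/-- `(H_σ ψ)(x) = ∑_{|y-x|=1} ψ(y) + σ ξ(x) ψ(x)` -/
noncomputable def H {d : ℕ} (σ : ℝ) (ξ : (Fin d → ℤ) → ℝ) (ψ : (Fin d → ℤ) → ℂ)
    (x : Fin d → ℤ) : ℂ :=
  ∑ i : Fin d, (ψ (x + Pi.single i 1) + ψ (x - Pi.single i 1)) + ((σ * ξ x : ℝ) : ℂ) * ψ x

/-- square summable functions -/
def SqSummable {d : ℕ} (u : (Fin d → ℤ) → ℂ) : Prop := Summable fun x => ‖u x‖ ^ 2

/-- `μ` is the spectral measure of the vector `g`: a finite measure whose Borel transform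
`∫ (E - z)⁻¹ dμ(E)` is `⟨g, (A - z)⁻¹ g⟩` for all non-real `z` -/
def IsSpectralMeasure {d : ℕ} (A : ((Fin d → ℤ) → ℂ) → (Fin d → ℤ) → ℂ) (g : (Fin d → ℤ) → ℂ)
    (μ : Measure ℝ) : Prop :=
  IsFiniteMeasure μ ∧ ∀ z : ℂ, z.im ≠ 0 → ∃ u : (Fin d → ℤ) → ℂ, SqSummable u ∧
    (∀ x, A u x - z * u x = g x) ∧ ∫ E : ℝ, ((E : ℂ) - z)⁻¹ ∂μ = ∑' x, (starRingEnd ℂ) (g x) * u x

/-- the reflected spectral measure -/
theorem refl {d : ℕ} (σ : ℝ) (ξ : (Fin d → ℤ) → ℝ) (g : (Fin d → ℤ) → ℂ) (m : Measure ℝ)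
    (hm : IsSpectralMeasure (H σ ξ) g m) (z : ℂ) (hz : z.im ≠ 0) :
    ∃ u : (Fin d → ℤ) → ℂ, (Summable fun x => ‖u x‖ ^ 2) ∧
      (∀ x, -Pool.Agent.W788.LD.Spec.S u x + ((-(σ * ξ x) : ℝ) : ℂ) * u x - z * u x = g x) ∧
      ∫ t : ℝ, ((t : ℂ) - z)⁻¹ ∂(m.map fun s => -s) = ∑' x, (starRingEnd ℂ) (g x) * u x := by
  obtain ⟨u, h1, h2, h3⟩ := hm.2 (-z) (by simpa using hz)
  refine ⟨fun x => -u x, ?_, fun x => ?_, ?_⟩
  · simp only [norm_neg]
    exact h1
  · rw [← h2 x]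
    unfold H Pool.Agent.W788.LD.Spec.S
    have e1 : ∑ i : Fin d, (-u (x + Pi.single i 1) + -u (x - Pi.single i 1)) =
        -∑ i : Fin d, (u (x + Pi.single i 1) + u (x - Pi.single i 1)) := by
      rw [← Finset.sum_neg_distrib]
      exact Finset.sum_congr rfl fun i _ => by ring
    rw [e1]
    push_cast
    ring
  · rw [integral_map (by fun_prop) (by
      have : Measurable fun t : ℝ => ((t : ℂ) - z)⁻¹ := by fun_prop
      exact this.aestronglyMeasurable)]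
    have e2 : ∀ t : ℝ, (((-t : ℝ) : ℂ) - z)⁻¹ = -((t : ℂ) - -z)⁻¹ := by
      intro t
      rw [← inv_neg]
      congr 1
      push_cast
      ring
    simp only [e2]
    rw [integral_neg, h3, ← tsum_neg]
    exact tsum_congr fun x => by ring

/-- **Theorem.** -/
theorem result (d : ℕ) (hd : 3 ≤ d) :
    ∃ σ0 K : ℝ, 0 < σ0 ∧ 0 < K ∧ ∀ σ : ℝ, 0 < σ → σ ≤ σ0 →
      ∃ G : Set ((Fin d → ℤ) → ℝ), MeasurableSet G ∧
        1 - Real.exp (-σ ^ (-(1 / 301) : ℝ)) ≤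
          (Measure.infinitePi fun _ : Fin d → ℤ => gaussianReal 0 1).real G ∧
        ∀ ξ ∈ G,
          (∀ (g : (Fin d → ℤ) → ℂ) (B : Finset (Fin d → ℤ)),
            (∀ a ∈ B, ‖a‖ ≤ Real.exp (σ ^ (-(1 / 301) : ℝ))) → (∀ a, a ∉ B → g a = 0) →
            ∀ m : Measure ℝ, IsSpectralMeasure (H σ ξ) g m →
            ∀ E s : ℝ, σ ^ (53 / 25 : ℝ) ≤ s →
            m.real (Set.Icc (E - s) (E + s)) ≤
              K * Real.log (1 / σ) * s * (∑ a ∈ B, ‖g a‖) ^ 2) ∧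
          (∀ (E : ℝ) (u : (Fin d → ℤ) → ℂ), SqSummable u →
            (∀ x, H σ ξ u x = (E : ℂ) * u x) →
            ∀ a : Fin d → ℤ, ‖a‖ ≤ Real.exp (σ ^ (-(1 / 301) : ℝ)) →
            ‖u a‖ ^ 2 ≤ K * Real.log (1 / σ) * σ ^ (53 / 25 : ℝ) * ∑' x, ‖u x‖ ^ 2) := by
  obtain ⟨σ0, K, hσ0, hσ03, hK, h⟩ := Pool.Agent.H189.U.smG d hd
  refine ⟨σ0, 20 * K, hσ0, by positivity, fun σ hσ hσ1 => ?_⟩
  obtain ⟨G, hG, hP, hGp⟩ := h σ hσ hσ1
  have hlog : 0 ≤ Real.log (1 / σ) := by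
    apply Real.log_nonneg
    rw [le_div_iff₀ hσ]
    linarith
  have hpow : 0 < σ ^ (53 / 25 : ℝ) := Real.rpow_pos_of_pos hσ _
  refine ⟨G, hG, hP, fun ξ hξ => ?_⟩
  obtain ⟨t, g, ht, htσ, hg, hgK, ht2, hSM⟩ := hGp ξ hξ
  obtain ⟨f1, f2⟩ := Pool.Agent.W788.BK.flat1 σ _ t g ht ht2 hg ξ hSM (fun x => -(σ * ξ x)) 0
    (fun x => by ring)
  constructor
  · intro f B hB hfB m hm E s hs
    have hmf := hm.1
    have hmm : Measurable fun s : ℝ => -s := measurable_neg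
    have hs0 : 0 < s := hpow.trans_le hs
    have h1 := f1 f B hB hfB (m.map fun s => -s) (Measure.isFiniteMeasure_map m _)
      (fun z hz => refl σ ξ f m hm z hz) (-E) s (htσ.trans hs)
    have h2 : (m.map fun s => -s).real (Set.Icc (-E - s) (-E + s)) =
        m.real (Set.Icc (E - s) (E + s)) := by
      rw [map_measureReal_apply hmm measurableSet_Icc]
      congr 1
      ext x
      simp only [Set.mem_preimage, Set.mem_Icc]
      constructor
      · rintro ⟨h3, h4⟩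
        constructor <;> linarith
      · rintro ⟨h3, h4⟩
        constructor <;> linarith
    rw [h2] at h1
    refine h1.trans ?_
    have h5 : 20 * g * s * (∑ a ∈ B, ‖f a‖) ^ 2 ≤
        20 * (K * Real.log (1 / σ)) * s * (∑ a ∈ B, ‖f a‖) ^ 2 := by gcongr
    refine h5.trans (le_of_eq ?_)
    ring
  · intro E u hu heq a ha
    have h1 := f2 (-E) u hu (fun x => by
      have h2 := heq x
      unfold H at h2
      unfold Pool.Agent.W788.LD.Spec.S
      push_cast at h2 ⊢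
      linear_combination (-1 : ℂ) * h2) a ha
    have hS : 0 ≤ ∑' x, ‖u x‖ ^ 2 := tsum_nonneg fun x => by positivity
    refine h1.trans (mul_le_mul_of_nonneg_right ?_ hS)
    calc 5 * g * t ≤ 5 * (K * Real.log (1 / σ)) * σ ^ (53 / 25 : ℝ) := by gcongr
      _ ≤ 20 * K * Real.log (1 / σ) * σ ^ (53 / 25 : ℝ) := by
          have : 0 ≤ K * Real.log (1 / σ) * σ ^ (53 / 25 : ℝ) := by positivity
          linarith

end Pool.Agent.Results.MP_1906c1_mp.FlatBeyondKinetic
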