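import Pool.Agent.Results.MP_1906c1_mp.DiffusionProfile
import Pool.Agent.H189.W.Heat
import Pool.Agent.H189.U.Evo

/-!
# Gaussian disorder, `d ≥ 3`: the heat equation in the time domain, for one fixed realisation

`H_σ = Δ + σ ξ` on `ℤ^d`, `d ≥ 3`, `(Δψ)(x) = ∑_{|y-x|=1} ψ(y)`, iid standard Gaussian `ξ`. For
every real potential the Schrodinger equation started at `δ_a` has exactly one solution
`ψ_t = e^{-itH_σ} δ_a` of norm one. Let `w` be any integrable weight on `(0, ∞)`, for instance the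
uniform weight on a short window `[1, 1 + δ]`. For `0 < σ ≤ σ₀(d, K, ε, w)`, with probability at
least `1 - exp(-σ^{-1/14000})`, the following holds simultaneously for

* all sites `|a| ≤ exp(σ^{-1/14000})`,
* all times `σ^{-2 - 1/79} ≤ T ≤ σ^{-2 - 1/42}` (the kinetic time is `σ^{-2}`),
* all `q ∈ ℝ^d` with `|q|² ≤ K`.

With `k = (σ² / T)^{1/2} q`, the `w`-average over `s > 0` of
`∑_x e^{i k·(x - a)} |ψ_{Ts}(x)|² - (1/π) ∫ Im g₀(E) exp(-2 D(E) |q|² s) dE` is at most `ε`.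

So the position of the particle at the times around `T`, in units of `(T / σ²)^{1/2}`, is
distributed like a mixture of Brownian motions: with the density of states `Im g₀ / π` at the energy
`E` and with the diffusion constant `D(E) = Im g₁(E) / (Im g₀(E))²` of the linear Boltzmann
equation. The diffusion constants are positive inside the band and the density of states has total
mass one, so no part of the wave packet is left behind.
-/

set_option autoImplicit false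

open scoped BigOperators Topology ComplexConjugate
open MeasureTheory Filter ProbabilityTheory

namespace Pool.Agent.Results.MP_1906c1_mp.HeatEquation

open Pool.Agent.Results.MP_1906c1_mp.DiffusionProfile

/-- `ψ_t = e^{-itH_σ} δ_a`: the solution of the Schrodinger equation started from `δ_a` -/
structure IsEvolution {d : ℕ} (σ : ℝ) (ξ : (Fin d → ℤ) → ℝ) (a : Fin d → ℤ)
    (ψ : ℝ → (Fin d → ℤ) → ℂ) : Prop where
  init : ∀ x, ψ 0 x = if x = a then 1 else 0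
  ode : ∀ t x, HasDerivAt (fun s => ψ s x) (-Complex.I * H σ ξ (ψ t) x) t
  norm : ∀ t, HasSum (fun x => ‖ψ t x‖ ^ 2) 1

/-- `∑_x e^{i k·(x - a)} |u(x)|²`: the characteristic function of the displacement from `a` -/
noncomputable def chf {d : ℕ} (a : Fin d → ℤ) (k : Fin d → ℝ) (u : (Fin d → ℤ) → ℂ) : ℂ :=
  ∑' x, Complex.exp (Complex.I * ((∑ i, k i * ((x i : ℝ) - a i) : ℝ) : ℂ)) *
    ((‖u x‖ ^ 2 : ℝ) : ℂ)

/-- `(1/π) ∫_{-2d}^{2d} Im g₀(E) exp(-2 D(E) r s) dE`: heat kernels at the time `s` and at the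
squared frequency `r`, mixed over the energies with the density of states -/
noncomputable def heat (d : ℕ) (r s : ℝ) : ℝ :=
  (1 / Real.pi) * ∫ E in (-(2 * (d : ℝ)))..(2 * d), (g0 d E).im * Real.exp (-(2 * D d E * r * s))

theorem heat_eq (d : ℕ) (r s : ℝ) : heat d r s = Pool.Agent.H189.W.Phi d (2 * r) s := by
  unfold heat Pool.Agent.H189.W.Phi
  congr 1
  refine intervalIntegral.integral_congr fun E _ => ?_
  have e : (Pool.Agent.H189.W.Dc d E) = D d E := rfl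
  have e' : Pool.Agent.H189.W.gI d E = (g0 d E).im := rfl
  simp only [e, e']
  congr 2
  ring

/-- complex conjugation reverses the sign of the Hamiltonian -/
theorem evo_iff {d : ℕ} (σ : ℝ) (ξ : (Fin d → ℤ) → ℝ) (a : Fin d → ℤ)
    (ψ : ℝ → (Fin d → ℤ) → ℂ) : IsEvolution σ ξ a ψ ↔
    Pool.Agent.TH794.QD.Sol d (fun x => -(σ * ξ x)) a (fun t x => conj (ψ t x)) := by
  have key : ∀ (t : ℝ) (x : Fin d → ℤ), conj (-Complex.I * H σ ξ (ψ t) x) =
      -Complex.I * (-Pool.Agent.W788.LD.Spec.S (fun y => conj (ψ t y)) x +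
        ((-(σ * ξ x) : ℝ) : ℂ) * conj (ψ t x)) := by
    intro t x
    unfold H Pool.Agent.W788.LD.Spec.S
    simp only [map_add, map_mul, map_sum, map_neg, Complex.conj_ofReal, Complex.conj_I]
    push_cast
    ring
  constructor
  · intro h
    refine ⟨fun x => ?_, fun t x => ?_, fun t => ?_⟩
    · rw [h.init]
      split_ifs <;> simp
    · rw [← key]
      exact (h.ode t x).star
    · simp only [RCLike.norm_conj]
      exact h.norm t
  · intro h
    refine ⟨fun x => ?_, fun t x => ?_, fun t => ?_⟩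
    · have h1 := congrArg conj (h.init x)
      simp only [Complex.conj_conj] at h1
      rw [h1]
      split_ifs <;> simp
    · have h1 := (h.ode t x).star
      rw [← key] at h1
      simp only [Complex.star_def, Complex.conj_conj] at h1
      exact h1
    · have h1 := h.norm t
      simp only [RCLike.norm_conj] at h1
      exact h1

/-- **Theorem.** -/
theorem result (d : ℕ) (hd : 3 ≤ d) :
    ((∀ E : ℝ, |E| < 2 * d → 0 < (g0 d E).im ∧ 0 < D d E) ∧
      ∫ E in (-(2 * (d : ℝ)))..(2 * d), (g0 d E).im = Real.pi) ∧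
    (∀ (σ : ℝ) (ξ : (Fin d → ℤ) → ℝ) (a : Fin d → ℤ), ∃! ψ, IsEvolution σ ξ a ψ) ∧
    ∀ K ε : ℝ, 0 ≤ K → 0 < ε → ∀ w : ℝ → ℝ, IntegrableOn w (Set.Ioi 0) →
      ∃ σ0 : ℝ, 0 < σ0 ∧ ∀ σ : ℝ, 0 < σ → σ ≤ σ0 →
      ∃ G : Set ((Fin d → ℤ) → ℝ), MeasurableSet G ∧
        1 - Real.exp (-σ ^ (-(1 / 14000) : ℝ)) ≤
          (Measure.infinitePi fun _ : Fin d → ℤ => gaussianReal 0 1).real G ∧
        ∀ ξ ∈ G, ∀ a : Fin d → ℤ, ‖a‖ ≤ Real.exp (σ ^ (-(1 / 14000) : ℝ)) →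
          ∀ ψ, IsEvolution σ ξ a ψ →
          ∀ T : ℝ, σ ^ (-(2 + 1 / 79) : ℝ) ≤ T → T ≤ σ ^ (-(2 + 1 / 42) : ℝ) →
          ∀ q : Fin d → ℝ, ∑ i, q i ^ 2 ≤ K →
            ‖∫ s in Set.Ioi (0 : ℝ), (w s : ℂ) *
              (chf a (fun i => Real.sqrt (σ ^ 2 / T) * q i) (ψ (T * s)) -
                (heat d (∑ i, q i ^ 2) s : ℂ))‖ ≤ ε := by
  have hd3 : (3 : ℝ) ≤ d := by exact_mod_cast hd
  refine ⟨⟨fun E hE => ?_, le_antisymm (Pool.Agent.H189.W.dos_le d hd)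
    (Pool.Agent.H189.W.dos_ge d hd)⟩, fun σ ξ a => ?_, fun K ε hK hε w hw => ?_⟩
  · obtain ⟨κ, hκ⟩ : ∃ κ, κ = min 1 (2 * d - |E|) := ⟨_, rfl⟩
    have hκ0 : 0 < κ := by rw [hκ]; exact lt_min one_pos (by linarith)
    obtain ⟨⟨m, hm, hl⟩, -⟩ := DiffusionProfile.result d hd κ hκ0 (by
      rw [hκ]
      exact min_le_left _ _)
    have h1 := hl E (by
      have : κ ≤ 2 * d - |E| := by rw [hκ]; exact min_le_right _ _
      linarith)
    have h2 : 0 < (g1 d E).im := by linarith [h1.1]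
    have h3 : 0 < (g0 d E).im := by linarith [h1.2]
    refine ⟨h3, ?_⟩
    unfold D
    positivity
  · obtain ⟨φ, hφ⟩ := Pool.Agent.H189.U.evo_exists (by omega) (fun x => -(σ * ξ x)) a
    refine ⟨fun t x => conj (φ t x), ?_, fun ψ hψ => ?_⟩
    · simp only
      rw [evo_iff]
      simp only [Complex.conj_conj]
      exact hφ
    · have h1 := Pool.Agent.H189.U.evo_unique (by omega) ((evo_iff σ ξ a ψ).1 hψ) hφ
      rw [← h1]
      simp only [Complex.conj_conj]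
  obtain ⟨n, κ, θ, hκ, hκ1, hθ, key⟩ := Pool.Agent.H189.W.heat_det d hd w hw ε hε
  obtain ⟨l0, hl0, h⟩ := (DiffusionProfile.result d hd κ hκ hκ1).2 (2 * K) (by positivity)
  obtain ⟨l1, hl1, hl11, hnum⟩ := Pool.Agent.R988.Tor.ev_extract
    ((Pool.Agent.R988.Tor.ev1 2 (1 / 1722) (by norm_num)).and
    ((Pool.Agent.R988.Tor.ev1 ((n + 1 : ℝ) / 2) (1 / 6320) (by norm_num)).and
    (Pool.Agent.R988.Tor.ev1 (1 / θ) (1 / 201) (by norm_num))))
  refine ⟨min l0 l1, lt_min hl0 hl1, fun σ hσ hle => ?_⟩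
  obtain ⟨G, hG, hP, hL⟩ := h σ hσ (hle.trans (min_le_left _ _))
  obtain ⟨n1, n2, n3⟩ := hnum σ hσ (hle.trans (min_le_right _ _))
  have hσ1 : σ ≤ 1 := hle.trans ((min_le_right _ _).trans hl11)
  have hpos : ∀ p : ℝ, 0 < σ ^ p := fun p => Real.rpow_pos_of_pos hσ p
  have hadd : ∀ p q : ℝ, σ ^ p * σ ^ q = σ ^ (p + q) :=
    fun p q => (Real.rpow_add hσ p q).symm
  have hθl : σ ^ (1 / 201 : ℝ) ≤ θ := by
    rw [one_div_mul_eq_div, div_le_one hθ] at n3
    exact n3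
  refine ⟨G, hG, hP, fun ξ hξ a ha ψ hψ T hT1 hT2 q hq => ?_⟩
  obtain ⟨φ, hφ⟩ : ∃ φ : ℝ → (Fin d → ℤ) → ℂ, φ = fun t x => conj (ψ t x) := ⟨_, rfl⟩
  have hsol : Pool.Agent.TH794.QD.Sol d (fun x => -(σ * ξ x)) a φ := by
    rw [hφ]
    exact (evo_iff σ ξ a ψ).1 hψ
  have hφn : ∀ t x, ‖φ t x‖ = ‖ψ t x‖ := fun t x => by rw [hφ, RCLike.norm_conj]
  have hT : 0 < T := lt_of_lt_of_le (hpos _) hT1
  have h4 := key (fun x => -(σ * ξ x)) a φ hsol 0 T
    (2 * ∑ i, q i ^ 2) (fun x => Complex.exp (Complex.I * ((∑ i, (Real.sqrt (σ ^ 2 / T) *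
      q i) * ((x i : ℝ) - a i) : ℝ) : ℂ))) hT (fun x => by
        rw [mul_comm, Complex.norm_exp_ofReal_mul_I]) (by positivity) (fun j hj e he => ?_)
  · simp only [heat_eq]
    unfold chf
    simp only [hφn] at h4
    exact h4
  -- the profile at the scale `η = (j + 1) / (2 T)`
  obtain ⟨J, hJ⟩ : ∃ J : ℝ, J = (j : ℝ) + 1 := ⟨_, rfl⟩
  have hJ1 : 1 ≤ J := by rw [hJ]; have := Nat.cast_nonneg (α := ℝ) j; linarith
  have hJn : J ≤ n + 1 := by
    rw [hJ]
    have : (j : ℝ) ≤ n := by exact_mod_cast hj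
    linarith
  have hJ0 : 0 < J := by linarith
  rw [← hJ]
  obtain ⟨η, hη⟩ : ∃ η, η = J / (2 * T) := ⟨_, rfl⟩
  have hη0 : 0 < η := by rw [hη]; positivity
  rw [← hη]
  have hηl : σ ^ (2 + 1 / 41 : ℝ) ≤ η := by
    rw [hη, le_div_iff₀ (by positivity)]
    have e1 : σ ^ (2 + 1 / 41 : ℝ) * σ ^ (-(2 + 1 / 42) : ℝ) = σ ^ (1 / 1722 : ℝ) := by
      rw [hadd]
      norm_num
    calc σ ^ (2 + 1 / 41 : ℝ) * (2 * T) ≤
        σ ^ (2 + 1 / 41 : ℝ) * (2 * σ ^ (-(2 + 1 / 42) : ℝ)) := by gcongr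
      _ = 2 * σ ^ (1 / 1722 : ℝ) := by rw [← e1]; ring
      _ ≤ 1 := n1
      _ ≤ J := hJ1
  have hηu : η ≤ σ ^ (2 + 1 / 80 : ℝ) := by
    rw [hη, div_le_iff₀ (by positivity)]
    have e1 : σ ^ (2 + 1 / 80 : ℝ) * σ ^ (-(2 + 1 / 79) : ℝ) * σ ^ (1 / 6320 : ℝ) = 1 := by
      rw [hadd, hadd]
      norm_num
    have e2 : (n + 1 : ℝ) ≤ σ ^ (2 + 1 / 80 : ℝ) * (2 * σ ^ (-(2 + 1 / 79) : ℝ)) := by
      have h5 : ((n : ℝ) + 1) / 2 * σ ^ (1 / 6320 : ℝ) ≤
          σ ^ (2 + 1 / 80 : ℝ) * σ ^ (-(2 + 1 / 79) : ℝ) * σ ^ (1 / 6320 : ℝ) := by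
        rw [e1]
        exact n2
      have h6 := le_of_mul_le_mul_right h5 (hpos _)
      linarith
    calc J ≤ n + 1 := hJn
      _ ≤ σ ^ (2 + 1 / 80 : ℝ) * (2 * σ ^ (-(2 + 1 / 79) : ℝ)) := e2
      _ ≤ σ ^ (2 + 1 / 80 : ℝ) * (2 * T) := by gcongr
  have hGr : IsGreen σ ξ a (-e) η
      (fun x => -conj (Complex.I * Pool.Agent.TH794.QD.La φ e η x)) := by
    have hsum := Pool.Agent.TH794.QD.La_sum hsol e η hη0
    refine ⟨by simpa only [norm_neg, RCLike.norm_conj] using hsum, fun x => ?_⟩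
    have h1 := congrArg conj (Pool.Agent.TH794.QD.La_eq hsol e η hη0 x)
    have h2 : conj (if x = a then (1 : ℂ) else 0) = if x = a then 1 else 0 := by
      split_ifs <;> simp
    rw [h2] at h1
    rw [← h1]
    unfold H Pool.Agent.W788.LD.Spec.S
    have e1 : ∑ i : Fin d, (-conj (Complex.I * Pool.Agent.TH794.QD.La φ e η (x + Pi.single i 1)) +
        -conj (Complex.I * Pool.Agent.TH794.QD.La φ e η (x - Pi.single i 1))) =
        -∑ i : Fin d, (conj (Complex.I * Pool.Agent.TH794.QD.La φ e η (x + Pi.single i 1)) +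
          conj (Complex.I * Pool.Agent.TH794.QD.La φ e η (x - Pi.single i 1))) := by
      rw [← Finset.sum_neg_distrib]
      exact Finset.sum_congr rfl fun i _ => by ring
    rw [e1]
    simp only [map_sub, map_add, map_mul, map_sum, map_neg, Complex.conj_ofReal, Complex.conj_I]
    push_cast
    ring
  have hLn : ∀ x, ‖-conj (Complex.I * Pool.Agent.TH794.QD.La φ e η x)‖ =
      ‖Pool.Agent.TH794.QD.La φ e η x‖ := fun x => by
    rw [norm_neg, RCLike.norm_conj, norm_mul, Complex.norm_I, one_mul]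
  rw [zero_sub, abs_neg] at he
  have hprof := (hL ξ hξ a ha (-e) (by rwa [abs_neg]) η hηl hηu).2 _ hGr
  simp only [hLn] at hprof
  rw [zero_sub]
  have hsq : Real.sqrt (2 / J) ^ 2 = 2 / J := Real.sq_sqrt (by positivity)
  have e1 : ∑ i, (Real.sqrt (2 / J) * q i) ^ 2 = (2 * ∑ i, q i ^ 2) / J := by
    have : ∑ i, (Real.sqrt (2 / J) * q i) ^ 2 = 2 / J * ∑ i, q i ^ 2 := by
      rw [Finset.mul_sum]
      refine Finset.sum_congr rfl fun i _ => ?_
      rw [mul_pow, hsq]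
    rw [this]
    ring
  constructor
  · have h5 := hprof (fun i => Real.sqrt (2 / J) * q i) (by
      rw [e1]
      have h7 : 0 ≤ ∑ i, q i ^ 2 := by positivity
      calc (2 * ∑ i, q i ^ 2) / J ≤ 2 * ∑ i, q i ^ 2 := div_le_self (by positivity) hJ1
        _ ≤ 2 * K := by gcongr)
    have e2 : ∀ x : Fin d → ℤ, Real.sqrt (η * σ ^ 2) *
        ∑ i, Real.sqrt (2 / J) * q i * ((x i : ℝ) - a i) =
        ∑ i, (Real.sqrt (σ ^ 2 / T) * q i) * ((x i : ℝ) - a i) := by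
      intro x
      have e3 : Real.sqrt (σ ^ 2 / T) = Real.sqrt (η * σ ^ 2) * Real.sqrt (2 / J) := by
        rw [← Real.sqrt_mul (by positivity)]
        congr 1
        rw [hη]
        field_simp
      rw [e3, Finset.mul_sum]
      refine Finset.sum_congr rfl fun i _ => ?_
      ring
    rw [e1] at h5
    simp only [e2] at h5
    exact h5.trans hθl
  · have h5 := hprof (fun _ => 0) (by simp; positivity)
    have e1 : ((η : ℂ) * ∑' x : Fin d → ℤ, Complex.exp (Complex.I *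
        ((Real.sqrt (η * σ ^ 2) * ∑ i : Fin d, (0 : ℝ) * ((x i : ℝ) - a i) : ℝ) : ℂ)) *
        ((‖Pool.Agent.TH794.QD.La φ e η x‖ ^ 2 : ℝ) : ℂ)) =
        ((η * ∑' x, ‖Pool.Agent.TH794.QD.La φ e η x‖ ^ 2 : ℝ) : ℂ) := by
      rw [Complex.ofReal_mul, Complex.ofReal_tsum]
      congr 1
      refine tsum_congr fun x => ?_
      simp
    have e2 : (1 + D d (-e) * ∑ i : Fin d, (0 : ℝ) ^ 2) = 1 := by
      simp
    rw [e1, e2, div_one, ← Complex.ofReal_sub, Complex.norm_real, Real.norm_eq_abs] at h5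
    exact h5.trans hθl

end Pool.Agent.Results.MP_1906c1_mp.HeatEquation
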